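import Pool.Agent.helper78.WB.SpecIII

/-!
# MP_bb5cc8_nt, project wb, row PNZ
-/

set_option autoImplicit false

namespace Pool.Agent.WB

open MvPolynomial

theorem PNZ : PNZ_stmt := by
  intro l hl d p hp hd h1 h0
  have hdvd : (C (l : ℤ) : MvPolynomial (Fin 3) ℤ) ∣ p := (C_dvd_iff_zmod l p).2 h0
  obtain ⟨r, hr⟩ := hdvd
  have hp0 : p ≠ 0 := hp.ne_zero
  rcases hp.isUnit_or_isUnit hr with h | h
  · have h2 : IsUnit ((l : ℤ)) := by
      have h3 := h.map (eval (0 : Fin 3 → ℤ))
      rwa [eval_C] at h3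
    rw [Int.isUnit_iff] at h2
    have := hl.two_le
    omega
  · have h2 : r.totalDegree = 0 := (isUnit_iff_totalDegree_of_isReduced.1 h).2
    have h3 : p.totalDegree = d := hd.totalDegree hp0
    have h4 : p.totalDegree ≤ 0 := by
      rw [hr]
      refine (totalDegree_mul _ _).trans ?_
      rw [totalDegree_C, h2]
    omega

end Pool.Agent.WB
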