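import Pool.Agent.helper79.WB.SpecII

/-!
# MP_bb5cc8_nt, project wb, Part II, row VAN
-/

set_option autoImplicit false

namespace Pool.Agent.WB

open MvPolynomial

theorem VAN_s3 (D N : ℕ) (hN : 2 ≤ N) (hD : D ≤ N) : s3 D ≤ N ^ 3 := by
  unfold s3
  have h1 : (D + 1) * (D + 2) ≤ (N + 1) * (N + 2) :=
    Nat.mul_le_mul (by omega) (by omega)
  have h2 : (N + 1) * (N + 2) ≤ 2 * N ^ 3 := by
    have h3 : 2 * (N * N) ≤ N * (N * N) := Nat.mul_le_mul_right _ hN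
    have h4 : 2 * N ≤ N * N := Nat.mul_le_mul_right _ hN
    have h5 : N ^ 3 = N * (N * N) := by ring
    have h6 : (N + 1) * (N + 2) = N * N + 3 * N + 2 := by ring
    rw [h5, h6]
    omega
  omega

theorem VAN_size (h5 : SIZE_stmt) (N D : ℕ) (hN : 2 ≤ N) (hD : D ≤ N) (G : MvPolynomial (Fin 3) ℤ)
    (hG : Cf N D G) (η : V3) (hη : ∀ i, |η i| ≤ (N : ℤ)) :
    |((eval η G : ℤ) : ℝ)| ≤ (N : ℝ) ^ (2 * (D : ℝ) + 6) := by
  have h1 := h5 D (s3 D * N ^ D) N G η hG.2.1 hG.2.2 hη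
  have h2 : s3 D * (s3 D * N ^ D) * N ^ D ≤ N ^ (2 * D + 6) := by
    have h3 := VAN_s3 D N hN hD
    calc s3 D * (s3 D * N ^ D) * N ^ D ≤ N ^ 3 * (N ^ 3 * N ^ D) * N ^ D :=
          Nat.mul_le_mul_right _ (Nat.mul_le_mul h3 (Nat.mul_le_mul_right _ h3))
      _ = N ^ (2 * D + 6) := by ring
  have h3 : |eval η G| ≤ ((N ^ (2 * D + 6) : ℕ) : ℤ) := by
    refine h1.trans ?_
    have h4 : ((s3 D * (s3 D * N ^ D) * N ^ D : ℕ) : ℤ) ≤ ((N ^ (2 * D + 6) : ℕ) : ℤ) := by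
      exact_mod_cast h2
    refine le_trans (le_of_eq ?_) h4
    push_cast
    ring
  have h4 : (|eval η G| : ℤ) ≤ ((N ^ (2 * D + 6) : ℕ) : ℤ) := h3
  have h6 : ((|eval η G| : ℤ) : ℝ) ≤ (((N ^ (2 * D + 6) : ℕ) : ℤ) : ℝ) := by
    exact_mod_cast h4
  rw [Int.cast_abs] at h6
  refine h6.trans (le_of_eq ?_)
  have h7 : (2 * (D : ℝ) + 6) = ((2 * D + 6 : ℕ) : ℝ) := by push_cast; ring
  rw [h7, Real.rpow_natCast]
  push_cast
  ring

theorem VAN (h1 : SAMP_stmt) (h2 : SG_stmt) (h3 : DIV_stmt) (h4 : CNT_stmt) (h5 : SIZE_stmt) :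
    VAN_stmt := by
  classical
  intro N D θ K ξ M A B F hN hξ hM hD hK hθ hA hlt hF hSA hSB hmul hdeg
  set Nb : V3 → Finset V3 := fun η => (F.filter fun e => e.2 = η).image Prod.fst with hNb
  have hmemNb : ∀ η ζ, ζ ∈ Nb η → (ζ, η) ∈ F := by
    intro η ζ hζ
    rw [hNb] at hζ
    simp only [Finset.mem_image, Finset.mem_filter] at hζ
    obtain ⟨e, ⟨he, he2⟩, he1⟩ := hζ
    have : e = (ζ, η) := Prod.ext he1 he2
    rw [← this]
    exact he
  have hNbcard : ∀ η, (Nb η).card = (F.filter fun e => e.2 = η).card := by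
    intro η
    refine Finset.card_image_of_injOn ?_
    intro e he e' he' hee
    rw [Finset.mem_coe, Finset.mem_filter] at he he'
    exact Prod.ext hee (he.2.trans he'.2.symm)
  obtain ⟨S, hSA', hScard, hhalf⟩ := h1 A B Nb θ K hK hθ (by
    intro b hb
    refine ⟨?_, ?_⟩
    · intro ζ hζ
      exact (hF _ (hmemNb b ζ hζ)).1
    · rw [hNbcard]
      exact hdeg b hb)
  have hS2 : 2 * S.card ≤ s3 D := by
    have h6 : K * (2 * S.card) ≤ K * s3 D := by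
      calc K * (2 * S.card) = 2 * (K * S.card) := by ring
        _ ≤ 2 * (4 * A.card) := Nat.mul_le_mul_left 2 hScard
        _ = 8 * A.card := by ring
        _ ≤ K * s3 D := hA
    exact Nat.le_of_mul_le_mul_left h6 (by omega)
  obtain ⟨G, hG, hGS⟩ := h2 N D S (by omega) (fun ζ hζ => (hSA ζ (hSA' hζ)).2) hS2
  refine ⟨G, hG, hhalf.trans ?_⟩
  refine Nat.mul_le_mul_left 2 (Finset.card_le_card ?_)
  intro η hη
  rw [Finset.mem_filter] at hη ⊢
  refine ⟨hη.1, ?_⟩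
  by_contra hne
  have hTmem : ∀ ζ ∈ Nb η ∩ S, (ζ, η) ∈ F ∧ ζ ∈ S := by
    intro ζ hζ
    rw [Finset.mem_inter] at hζ
    exact ⟨hmemNb η ζ hζ.1, hζ.2⟩
  set Ed : Finset (V3 × V3) := (Nb η ∩ S).image fun ζ => (ζ, η) with hEd
  have hEdcard : Ed.card = (Nb η ∩ S).card := by
    refine Finset.card_image_of_injective _ ?_
    intro a b hab
    exact congrArg Prod.fst hab
  have hEdmem : ∀ e ∈ Ed, e ∈ F ∧ e.2 = η ∧ e.1 ∈ S := by
    intro e he
    rw [hEd, Finset.mem_image] at he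
    obtain ⟨ζ, hζ, rfl⟩ := he
    exact ⟨(hTmem ζ hζ).1, rfl, (hTmem ζ hζ).2⟩
  have hcnt := h4 N ξ (2 * (D : ℝ) + 6) M (eval η G) Ed hN hξ hM hne
    (VAN_size h5 N D hN hD G hG η (hSB η hη.1).2)
    (by
      intro e he
      obtain ⟨heF, he2, he1⟩ := hEdmem e he
      obtain ⟨hp, hs, u, v, hu, hv⟩ := (hF e heF).2.2
      refine ⟨hp, hs, ?_⟩
      have h6 := h3 D G e.1 e.2 u v hG.2.1 (hSA e.1 (hSA' he1)).1 hu hv hp (hGS e.1 he1)
      rw [he2] at h6 ⊢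
      exact h6)
    (by
      intro l
      refine le_trans ?_ (hmul η l)
      have h6 : (Ed.filter fun e => (dt e.1 e.2).natAbs = l).card ≤
          (F.filter fun e => e.2 = η ∧ (dt e.1 e.2).natAbs = l).card := by
        refine Finset.card_le_card ?_
        intro e he
        rw [Finset.mem_filter] at he ⊢
        obtain ⟨heF, he2, he1⟩ := hEdmem e he.1
        exact ⟨heF, he2, he.2⟩
      exact_mod_cast h6)
  rw [hEdcard] at hcnt
  have h6 : θ ≤ 2 * K * (Nb η ∩ S).card := by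
    refine le_trans ?_ hη.2
    rw [hNbcard]
    exact hdeg η hη.1
  have h7 : (θ : ℝ) / (2 * (K : ℝ)) ≤ ((Nb η ∩ S).card : ℝ) := by
    have hK0 : (0 : ℝ) < 2 * (K : ℝ) := by
      have : (1 : ℝ) ≤ (K : ℝ) := by exact_mod_cast hK
      linarith
    rw [div_le_iff₀ hK0]
    have h8 : (θ : ℝ) ≤ ((2 * K * (Nb η ∩ S).card : ℕ) : ℝ) := by exact_mod_cast h6
    push_cast at h8
    linarith
  linarith

end Pool.Agent.WB
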